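import Pool.Agent.H98.SLN.Targets

/-!
Row UUP of the board sln: the renewal mass.
-/

set_option autoImplicit false

open MeasureTheory ProbabilityTheory Filter Topology
open scoped ENNReal
open Pool.Agent.H95 Pool.Agent.H95.Cop
open Pool.Agent.H55.CG (pz VV Mo)
open Pool.Agent.H98.SLN

namespace Pool.Agent.H67.SLN

theorem uup_TS_mono (K : PMF ℕ) (L L' : ℕ) (h : L ≤ L') : TS K L ≤ TS K L' := by
  unfold TS
  exact Finset.sum_le_sum_of_subset_of_nonneg (Finset.range_mono h)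
    fun i _ _ => tailK_nonneg K _

theorem uup_UU_mono (K : PMF ℕ) (L L' : ℕ) (h : L ≤ L') : UU K L ≤ UU K L' := by
  unfold UU
  exact Finset.sum_le_sum_of_subset_of_nonneg (Finset.range_mono h)
    fun i _ _ => uu_nonneg _ (kk_nonneg K) _

theorem uup_UU_nonneg (K : PMF ℕ) (L : ℕ) : 0 ≤ UU K L := by
  unfold UU
  exact Finset.sum_nonneg fun i _ => uu_nonneg _ (kk_nonneg K) _

theorem uup_TS_nonneg (K : PMF ℕ) (L : ℕ) : 0 ≤ TS K L := by
  unfold TS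
  exact Finset.sum_nonneg fun i _ => tailK_nonneg K _

theorem uup_one (K : PMF ℕ) (hK0 : K 0 = 0) (L : ℕ) : UU K L * TS K L ≤ 2 * L := by
  have h1 : (2 * L : ℝ) = ∑ m ∈ Finset.range (2 * L),
      ∑ n ∈ Finset.range (m + 1), uu (kk K) n * tailK K (m + 1 - n) := by
    simp_rw [renewal_identity K hK0]
    simp
  have h2 : ∑ m ∈ Finset.range (2 * L), ∑ n ∈ Finset.range (m + 1),
      uu (kk K) n * tailK K (m + 1 - n)
      = ∑ n ∈ Finset.range (2 * L), ∑ m ∈ Finset.Ico n (2 * L),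
        uu (kk K) n * tailK K (m + 1 - n) := by
    apply Finset.sum_comm'
    intro m n
    simp only [Finset.mem_range, Finset.mem_Ico]
    omega
  rw [h1, h2, UU, Finset.sum_mul]
  have h0 : ∀ n, 0 ≤ ∑ m ∈ Finset.Ico n (2 * L), uu (kk K) n * tailK K (m + 1 - n) := fun n =>
    Finset.sum_nonneg fun m _ => mul_nonneg (uu_nonneg _ (kk_nonneg K) n) (tailK_nonneg K _)
  refine le_trans (Finset.sum_le_sum ?_) (Finset.sum_le_sum_of_subset_of_nonneg
    (Finset.range_mono (by omega : L ≤ 2 * L)) fun n _ _ => h0 n)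
  intro n hn
  rw [Finset.mem_range] at hn
  rw [← Finset.mul_sum]
  apply mul_le_mul_of_nonneg_left _ (uu_nonneg _ (kk_nonneg K) n)
  have h3 : ∑ m ∈ Finset.Ico n (2 * L), tailK K (m + 1 - n) = TS K (2 * L - n) := by
    unfold TS
    rw [Finset.sum_Ico_eq_sum_range]
    apply Finset.sum_congr rfl
    intro j hj
    congr 1
    omega
  rw [h3]
  exact uup_TS_mono K _ _ (by omega)

theorem uup_VV (K : PMF ℕ) (ℓ : ℕ) : VV K ℓ = ∑ y ∈ Finset.range ℓ, UU K (ℓ - y) := by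
  unfold VV
  refine Finset.sum_congr rfl fun y _ => ?_
  rw [Finset.sum_Ico_eq_sum_range]
  unfold UU
  refine Finset.sum_congr rfl fun i _ => ?_
  rw [Nat.add_sub_cancel_left]

theorem pf_UUP : T_UUP := by
  intro K hK0
  refine ⟨uup_one K hK0, uup_TS_mono K, ?_, ?_⟩
  · intro ℓ
    rw [uup_VV]
    calc ∑ y ∈ Finset.range ℓ, UU K (ℓ - y) ≤ ∑ _y ∈ Finset.range ℓ, UU K ℓ :=
          Finset.sum_le_sum fun y _ => uup_UU_mono K _ _ (Nat.sub_le _ _)
      _ = ℓ * UU K ℓ := by rw [Finset.sum_const, Finset.card_range, nsmul_eq_mul]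
  · intro ℓ hℓ
    set L0 := (ℓ + 1) / 2 with hL0
    have hle : L0 ≤ ℓ := by omega
    have h1 : (L0 : ℝ) ≤ UU K L0 * TS K ℓ :=
      (le_UU_mul K hK0 L0).trans (mul_le_mul_of_nonneg_left (uup_TS_mono K _ _ hle)
        (uup_UU_nonneg K _))
    have h2 : ((ℓ - L0 + 1 : ℕ) : ℝ) * UU K L0 ≤ VV K ℓ := by
      rw [uup_VV]
      calc ((ℓ - L0 + 1 : ℕ) : ℝ) * UU K L0
          = ∑ _y ∈ Finset.range (ℓ - L0 + 1), UU K L0 := by
            rw [Finset.sum_const, Finset.card_range, nsmul_eq_mul]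
        _ ≤ ∑ y ∈ Finset.range (ℓ - L0 + 1), UU K (ℓ - y) := by
            refine Finset.sum_le_sum fun y hy => uup_UU_mono K _ _ ?_
            rw [Finset.mem_range] at hy
            omega
        _ ≤ ∑ y ∈ Finset.range ℓ, UU K (ℓ - y) :=
            Finset.sum_le_sum_of_subset_of_nonneg (Finset.range_mono (by omega))
              fun i _ _ => uup_UU_nonneg K _
    have h3 : (ℓ : ℝ) ≤ 2 * L0 := by
      have : ℓ ≤ 2 * L0 := by omega
      exact_mod_cast this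
    have h4 : (ℓ : ℝ) ≤ 2 * ((ℓ - L0 + 1 : ℕ) : ℝ) := by
      have : ℓ ≤ 2 * (ℓ - L0 + 1) := by omega
      exact_mod_cast this
    have hT := uup_TS_nonneg K ℓ
    have h5 : ((ℓ - L0 + 1 : ℕ) : ℝ) * L0 ≤ TS K ℓ * VV K ℓ := by
      calc ((ℓ - L0 + 1 : ℕ) : ℝ) * L0
          ≤ ((ℓ - L0 + 1 : ℕ) : ℝ) * (UU K L0 * TS K ℓ) :=
            mul_le_mul_of_nonneg_left h1 (Nat.cast_nonneg _)
        _ = TS K ℓ * (((ℓ - L0 + 1 : ℕ) : ℝ) * UU K L0) := by ring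
        _ ≤ TS K ℓ * VV K ℓ := mul_le_mul_of_nonneg_left h2 hT
    have h6 : (ℓ : ℝ) * ℓ ≤ (2 * ((ℓ - L0 + 1 : ℕ) : ℝ)) * (2 * L0) :=
      mul_le_mul h4 h3 (Nat.cast_nonneg _) (by positivity)
    calc (ℓ : ℝ) ^ 2 = ℓ * ℓ := by ring
      _ ≤ (2 * ((ℓ - L0 + 1 : ℕ) : ℝ)) * (2 * L0) := h6
      _ = 4 * (((ℓ - L0 + 1 : ℕ) : ℝ) * L0) := by ring
      _ ≤ 4 * (TS K ℓ * VV K ℓ) := by linarith
      _ = 4 * TS K ℓ * VV K ℓ := by ring

end Pool.Agent.H67.SLN
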